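import Mathlib

/-!
# Group ring identities for averages over subgroups
-/

set_option autoImplicit false

namespace Pool.Agent.Q5.ZG

variable {G K : Type} [Group G] [AddCommGroup K] [Module ℚ K] (ρ : Representation ℚ G K)

/-- the vectors fixed by `H` -/
def fixedBy (H : Subgroup G) : Submodule ℚ K where
  carrier := {x | ∀ h ∈ H, ρ h x = x}
  zero_mem' := fun h _ => map_zero _
  add_mem' := fun {x y} hx hy h hh => by rw [map_add, hx h hh, hy h hh]
  smul_mem' := fun c x hx h hh => by rw [map_smul, hx h hh]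

theorem ρ_mul (g h : G) (x : K) : ρ (g * h) x = ρ g (ρ h x) := by
  rw [map_mul]
  rfl

theorem pow_mod' {u : G} {n : ℕ} (hu : u ^ n = 1) (m : ℕ) : u ^ (m % n) = u ^ m := by
  conv_rhs => rw [← Nat.div_add_mod m n, pow_add, pow_mul, hu, one_pow, one_mul]

variable {n : ℕ} [NeZero n]

/-- the power of `u` with exponent in `ℤ/n` -/
def pw (u : G) (z : ZMod n) : G := u ^ z.val

theorem pw_zero (u : G) : pw u (0 : ZMod n) = 1 := by
  unfold pw
  rw [ZMod.val_zero, pow_zero]

theorem pw_add {u : G} (hu : u ^ n = 1) (z w : ZMod n) : pw u (z + w) = pw u z * pw u w := by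
  unfold pw
  rw [ZMod.val_add, pow_mod' hu, pow_add]

theorem pw_mul {u : G} (hu : u ^ n = 1) (z w : ZMod n) : pw u (z * w) = pw u z ^ w.val := by
  unfold pw
  rw [ZMod.val_mul, pow_mod' hu, pow_mul]

theorem pw_natCast {u : G} (hu : u ^ n = 1) (m : ℕ) : pw u (m : ZMod n) = u ^ m := by
  unfold pw
  rw [ZMod.val_natCast, pow_mod' hu]

variable (n) in
/-- the sum of the translates under the powers of `u` -/
def T (u : G) (x : K) : K := ∑ z : ZMod n, ρ (pw u z) x

variable {ρ}

theorem T_mem {u : G} (hu : u ^ n = 1) (x : K) : T ρ n u x ∈ fixedBy ρ (Subgroup.zpowers u) := by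
  have h1 : ρ u (T ρ n u x) = T ρ n u x := by
    unfold T
    rw [map_sum]
    have h2 : ∀ z : ZMod n, ρ u (ρ (pw u z) x) = ρ (pw u (Equiv.addRight 1 z)) x := by
      intro z
      have h3 : pw u (Equiv.addRight (1 : ZMod n) z) = u * pw u z := by
        have e1 := pw_natCast hu 1
        rw [Nat.cast_one, pow_one] at e1
        change pw u (z + 1) = _
        rw [add_comm, pw_add hu, e1]
      rw [h3, ρ_mul]
    rw [Finset.sum_congr rfl fun z _ => h2 z]
    exact Equiv.sum_comp (Equiv.addRight (1 : ZMod n)) fun z => ρ (pw u z) x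
  intro h hh
  obtain ⟨k, rfl⟩ := Subgroup.mem_zpowers_iff.1 hh
  let S : Subgroup G :=
    { carrier := {g | ρ g (T ρ n u x) = T ρ n u x}
      one_mem' := by simp
      mul_mem' := fun {g g'} hg hg' => by
        change ρ (g * g') _ = _
        rw [ρ_mul, show ρ g' (T ρ n u x) = T ρ n u x from hg',
          show ρ g (T ρ n u x) = T ρ n u x from hg]
      inv_mem' := fun {g} hg => by
        change ρ g⁻¹ _ = _
        have h3 : ρ g⁻¹ (ρ g (T ρ n u x)) = T ρ n u x := by
          rw [← ρ_mul, inv_mul_cancel]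
          simp
        rwa [show ρ g (T ρ n u x) = T ρ n u x from hg] at h3 }
  exact S.zpow_mem (show u ∈ S from h1) k

theorem sum_mul {p : ℕ} [Fact p.Prime] {k : ZMod p} (hk : k ≠ 0) (u : G) (x : K) :
    ∑ i : ZMod p, ρ (pw u (i * k)) x = T ρ p u x :=
  Equiv.sum_comp (Equiv.mulRight₀ k hk) fun z => ρ (pw u z) x

/-- the identity for two commuting elements of order `p` -/
theorem identity_A {p : ℕ} [Fact p.Prime] {a b : G} (hab : Commute a b) (ha : a ^ p = 1)
    (hb : b ^ p = 1) (x : K) :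
    (p : ℚ) • x = ∑ i : ZMod p, T ρ p (a * pw b i) x + T ρ p b x - T ρ p a (T ρ p b x) := by
  have h1 : ∀ i k : ZMod p, pw (a * pw b i) k = pw a k * pw b (i * k) := by
    intro i k
    rw [pw_mul hb]
    unfold pw
    exact (hab.pow_right _).mul_pow _
  have h2 : ∑ i : ZMod p, T ρ p (a * pw b i) x =
      ∑ k : ZMod p, ρ (pw a k) (∑ i : ZMod p, ρ (pw b (i * k)) x) := by
    unfold T
    rw [Finset.sum_comm]
    refine Finset.sum_congr rfl fun k _ => ?_
    rw [map_sum]
    exact Finset.sum_congr rfl fun i _ => by rw [h1, ρ_mul]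
  have h3 : ∑ k : ZMod p, ρ (pw a k) (∑ i : ZMod p, ρ (pw b (i * k)) x) =
      (p : ℚ) • x + ∑ k ∈ Finset.univ.erase (0 : ZMod p), ρ (pw a k) (T ρ p b x) := by
    rw [← Finset.add_sum_erase _ _ (Finset.mem_univ (0 : ZMod p))]
    congr 1
    · have : ∀ i : ZMod p, ρ (pw b (i * 0)) x = x := by
        intro i
        rw [mul_zero, pw_zero]
        simp
      rw [Finset.sum_congr rfl fun i _ => this i, pw_zero, Finset.sum_const, Finset.card_univ,
        ZMod.card, ← Nat.cast_smul_eq_nsmul ℚ]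
      simp
    · refine Finset.sum_congr rfl fun k hk => ?_
      rw [sum_mul (Finset.ne_of_mem_erase hk)]
  have h4 : T ρ p a (T ρ p b x) = T ρ p b x +
      ∑ k ∈ Finset.univ.erase (0 : ZMod p), ρ (pw a k) (T ρ p b x) := by
    conv_lhs => unfold T
    rw [← Finset.add_sum_erase _ _ (Finset.mem_univ (0 : ZMod p)), pw_zero]
    simp only [map_one, Module.End.one_apply]
    rfl
  rw [h2, h3, h4]
  abel

/-- the identity for a Frobenius group -/
theorem identity_B {p q : ℕ} [Fact p.Prime] [NeZero q] {a b : G} {r : ℕ} (ha : a ^ p = 1)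
    (hb : b ^ q = 1) (hr : b * a = a ^ r * b)
    (hk : ∀ k : ℕ, 0 < k → k < q → ((r : ZMod p)) ^ k ≠ 1) (x : K) :
    (p : ℚ) • x = ∑ t : ZMod p, ρ (pw a t) (T ρ q b (ρ (pw a (-t)) x)) - T ρ p a (T ρ q b x) +
      T ρ p a x := by
  have c1 : ∀ s : ℕ, b * a ^ s = a ^ (s * r) * b := by
    intro s
    induction s with
    | zero => simp
    | succ s ih => rw [pow_succ, ← mul_assoc, ih, mul_assoc, hr, ← mul_assoc, ← pow_add,
        Nat.succ_mul]
  have c2 : ∀ k s : ℕ, b ^ k * a ^ s = a ^ (s * r ^ k) * b ^ k := by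
    intro k
    induction k with
    | zero => intro s; simp
    | succ k ih =>
      intro s
      rw [pow_succ, mul_assoc, c1, ← mul_assoc, ih, mul_assoc, pow_succ r, mul_assoc s r,
        mul_comm r]
  have h1 : ∀ (t : ZMod p) (k : ZMod q), pw a t * (pw b k * pw a (-t)) =
      pw a (t * (1 - (r : ZMod p) ^ k.val)) * pw b k := by
    intro t k
    have e1 : pw b k * pw a (-t) = pw a (-t * (r : ZMod p) ^ k.val) * pw b k := by
      have e2 : pw a (-t * (r : ZMod p) ^ k.val) = a ^ ((-t).val * r ^ k.val) := by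
        rw [← pw_natCast ha]
        congr 1
        push_cast
        rw [ZMod.natCast_zmod_val]
      rw [e2]
      exact c2 _ _
    rw [e1, ← mul_assoc, ← pw_add ha]
    congr 2
    ring
  have h2 : ∑ t : ZMod p, ρ (pw a t) (T ρ q b (ρ (pw a (-t)) x)) =
      ∑ k : ZMod q, ∑ t : ZMod p, ρ (pw a (t * (1 - (r : ZMod p) ^ k.val))) (ρ (pw b k) x) := by
    unfold T
    rw [Finset.sum_comm]
    refine Finset.sum_congr rfl fun t _ => ?_
    rw [map_sum]
    refine Finset.sum_congr rfl fun k _ => ?_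
    rw [← ρ_mul, ← ρ_mul, ← ρ_mul, mul_assoc, h1]
  have h3 : ∑ k : ZMod q, ∑ t : ZMod p, ρ (pw a (t * (1 - (r : ZMod p) ^ k.val))) (ρ (pw b k) x) =
      (p : ℚ) • x + ∑ k ∈ Finset.univ.erase (0 : ZMod q), T ρ p a (ρ (pw b k) x) := by
    rw [← Finset.add_sum_erase _ _ (Finset.mem_univ (0 : ZMod q))]
    congr 1
    · have : ∀ t : ZMod p, ρ (pw a (t * (1 - (r : ZMod p) ^ (0 : ZMod q).val)))
          (ρ (pw b (0 : ZMod q)) x) = x := by
        intro t
        rw [ZMod.val_zero, pow_zero, sub_self, mul_zero, pw_zero, pw_zero]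
        simp
      rw [Finset.sum_congr rfl fun t _ => this t, Finset.sum_const, Finset.card_univ,
        ZMod.card, ← Nat.cast_smul_eq_nsmul ℚ]
    · refine Finset.sum_congr rfl fun k hk' => ?_
      apply sum_mul
      intro h0
      have hk0 : k ≠ 0 := Finset.ne_of_mem_erase hk'
      refine hk k.val ?_ (ZMod.val_lt k) (sub_eq_zero.1 h0).symm
      exact Nat.pos_of_ne_zero fun h => hk0 ((ZMod.val_eq_zero k).1 h)
  have h4 : T ρ p a (T ρ q b x) = T ρ p a x +
      ∑ k ∈ Finset.univ.erase (0 : ZMod q), T ρ p a (ρ (pw b k) x) := by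
    have e : ∀ y : K, T ρ p a y = (∑ z : ZMod p, ρ (pw a z)) y := by
      intro y
      unfold T
      rw [LinearMap.sum_apply]
    have e3 : T ρ q b x = x + ∑ k ∈ Finset.univ.erase (0 : ZMod q), ρ (pw b k) x := by
      unfold T
      rw [← Finset.add_sum_erase _ _ (Finset.mem_univ (0 : ZMod q)), pw_zero]
      simp
    rw [e3]
    simp only [e]
    rw [map_add, map_sum]
  rw [h2, h3, h4]
  abel

end Pool.Agent.Q5.ZG
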