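import Pool.Agent.Q5.ZG.Alg

/-!
# Zagier's conjecture for the subfields of a number field

`E` is a number field, `n ≥ 2`, and `G` a group of automorphisms of `E`; the subgroups `H` of `G`
give the subfields `E^H`.
-/

set_option autoImplicit false

namespace Pool.Agent.Q5.ZG

/-- The groups and maps of Zagier's conjecture for the fields `E^H`, with their known
properties. -/
structure ZagierData (G : Type) [Group G] where
  /-- `K_(2n-1)(E) ⊗ ℚ` -/
  K : Type
  [addK : AddCommGroup K]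
  [modK : Module ℚ K]
  /-- the action of `G` on it; the vectors fixed by `H` are `K_(2n-1)(E^H) ⊗ ℚ` -/
  ρ : Representation ℚ G K
  /-- the index set of the `d_n` embeddings of `E^H` -/
  ι : Subgroup G → Type
  [finι : ∀ H, Fintype (ι H)]
  [decι : ∀ H, DecidableEq (ι H)]
  /-- the number `ζ_F(n) d_F^(1/2) π^(-n d_(n-1))` for `F = E^H` -/
  Z : Subgroup G → ℝ
  Z_ne : ∀ H, Z H ≠ 0
  /-- the Borel regulator for `E^H` (an embedding of `E` above each of the embeddings of `E^H` is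
  chosen) -/
  reg : ∀ H, K →ₗ[ℚ] (ι H → ℝ)
  /-- Borel's theorem -/
  borel : ∀ H, ∃ x : ι H → K, (∀ i, x i ∈ fixedBy ρ H) ∧
    (∀ y ∈ fixedBy ρ H, ∃ c : ι H → ℚ, y = ∑ i, c i • x i) ∧
    ∃ q : ℚ, q ≠ 0 ∧ (Matrix.of fun i j => reg H (x i) j).det = q * Z H
  /-- the kernel of `δ_n` on `𝓑_n(E^H)` -/
  B : Subgroup G → Type
  [addB : ∀ H, AddCommGroup (B H)]
  /-- the numbers `L_n(σ_j(y))` -/
  v : ∀ H, B H →+ (ι H → ℝ)
  /-- the map of Beilinson, Deligne and de Jeu -/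
  l : ∀ H, B H →+ K
  l_mem : ∀ H (y : B H), l H y ∈ fixedBy ρ H
  reg_l : ∀ H (y : B H), reg H (l H y) = v H y
  /-- compatibility of `l` with the inclusion of `E^H` in `E` -/
  up : ∀ H (y : B H), ∃ y' : B ⊥, l ⊥ y' = l H y
  /-- compatibility of `l` with automorphisms -/
  move : ∀ (g : G) (y : B ⊥), ∃ y' : B ⊥, l ⊥ y' = ρ g (l ⊥ y)

attribute [instance] ZagierData.addK ZagierData.modK ZagierData.finι ZagierData.decι
  ZagierData.addB

namespace ZagierData

variable {G : Type} [Group G] (D : ZagierData G)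

/-- Zagier's conjecture for the field `E^H`. -/
def Zagier (H : Subgroup G) : Prop :=
  ∃ (y : D.ι H → D.B H) (q : ℚ), q ≠ 0 ∧
    (Matrix.of fun i j => D.v H (y i) j).det = q * D.Z H

variable {D}

/-- a common denominator -/
theorem exists_common {ι : Type} [Fintype ι] (d : ι → ℚ) :
    ∃ (N : ℕ) (m : ι → ℤ), 0 < N ∧ ∀ i, (N : ℚ) * d i = m i := by
  classical
  refine ⟨∏ i, (d i).den, fun i => (∏ k ∈ Finset.univ.erase i, ((d k).den : ℤ)) * (d i).num,
    Finset.prod_pos fun i _ => (d i).pos, fun i => ?_⟩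
  rw [← Finset.mul_prod_erase _ _ (Finset.mem_univ i)]
  have h := Rat.mul_den_eq_num (d i)
  push_cast
  rw [← h]
  ring

theorem onto_of_zagier {H : Subgroup G} (h : D.Zagier H) :
    ∀ x ∈ fixedBy D.ρ H, ∃ N : ℕ, 0 < N ∧ ∃ y : D.B H, D.l H y = (N : ℚ) • x := by
  obtain ⟨y, q, hq, hdet⟩ := h
  obtain ⟨x, hx, hspan, q', hq', hb⟩ := D.borel H
  choose C hC using fun i => hspan _ (D.l_mem H (y i))
  let X : Matrix (D.ι H) (D.ι H) ℝ := Matrix.of fun i j => D.reg H (x i) j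
  let Cm : Matrix (D.ι H) (D.ι H) ℚ := Matrix.of C
  have e : (Matrix.of fun i j => D.v H (y i) j) = Cm.map (Rat.castHom ℝ) * X := by
    ext i j
    rw [Matrix.mul_apply]
    change D.v H (y i) j = ∑ k, ((C i k : ℚ) : ℝ) * D.reg H (x k) j
    rw [← D.reg_l, hC i, map_sum, Finset.sum_apply]
    refine Finset.sum_congr rfl fun k _ => ?_
    rw [map_smul, Pi.smul_apply, Rat.smul_def]
  have hdetC : Cm.det ≠ 0 := by
    intro h0
    have h1 : (Cm.map (Rat.castHom ℝ)).det = ((Cm.det : ℚ) : ℝ) :=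
      ((Rat.castHom ℝ).map_det Cm).symm
    rw [e, Matrix.det_mul, h1, h0, Rat.cast_zero, zero_mul] at hdet
    have : ((q : ℚ) : ℝ) * D.Z H ≠ 0 := mul_ne_zero (by exact_mod_cast hq) (D.Z_ne H)
    exact this hdet.symm
  intro z hz
  obtain ⟨c, hc⟩ := hspan z hz
  let d : D.ι H → ℚ := Matrix.vecMul c Cm⁻¹
  have hd : Matrix.vecMul d Cm = c := by
    change Matrix.vecMul (Matrix.vecMul c Cm⁻¹) Cm = c
    rw [Matrix.vecMul_vecMul, Matrix.nonsing_inv_mul _ (isUnit_iff_ne_zero.2 hdetC),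
      Matrix.vecMul_one]
  obtain ⟨N, m, hN, hm⟩ := exists_common d
  refine ⟨N, hN, ∑ i, m i • y i, ?_⟩
  have e1 : z = ∑ i, d i • D.l H (y i) := by
    rw [hc]
    have e2 : ∀ i, d i • D.l H (y i) = ∑ k, (d i * C i k) • x k := by
      intro i
      rw [hC i, Finset.smul_sum]
      exact Finset.sum_congr rfl fun k _ => by rw [smul_smul]
    rw [Finset.sum_congr rfl fun i _ => e2 i, Finset.sum_comm]
    refine Finset.sum_congr rfl fun k _ => ?_
    rw [← Finset.sum_smul]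
    congr 1
    have := congrFun hd k
    rw [Matrix.vecMul, dotProduct] at this
    exact this.symm
  rw [map_sum, e1, Finset.smul_sum]
  refine Finset.sum_congr rfl fun i _ => ?_
  rw [map_zsmul, smul_smul, hm, ← Int.cast_smul_eq_zsmul ℚ]

theorem zagier_of_onto {H : Subgroup G}
    (h : ∀ x ∈ fixedBy D.ρ H, ∃ N : ℕ, 0 < N ∧ ∃ y : D.B H, D.l H y = (N : ℚ) • x) :
    D.Zagier H := by
  obtain ⟨x, hx, hspan, q', hq', hb⟩ := D.borel H
  choose N hN y hy using fun i => h (x i) (hx i)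
  refine ⟨y, (∏ i, (N i : ℚ)) * q', ?_, ?_⟩
  · exact mul_ne_zero (Finset.prod_ne_zero_iff.2 fun i _ => by
      exact_mod_cast (hN i).ne') hq'
  · have e : (Matrix.of fun i j => D.v H (y i) j) =
        Matrix.of fun i j => ((N i : ℕ) : ℝ) * (Matrix.of fun i j => D.reg H (x i) j) i j := by
      ext i j
      change D.v H (y i) j = ((N i : ℕ) : ℝ) * D.reg H (x i) j
      rw [← D.reg_l, hy i, map_smul, Pi.smul_apply, Rat.smul_def]
      push_cast
      rfl
    rw [e, Matrix.det_mul_column, hb]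
    push_cast
    ring

/-- the elements that come from `𝓑_n(E)` rationally -/
def W (D : ZagierData G) : Submodule ℚ D.K where
  carrier := {x | ∃ N : ℕ, 0 < N ∧ ∃ y : D.B ⊥, D.l ⊥ y = (N : ℚ) • x}
  zero_mem' := ⟨1, one_pos, 0, by simp⟩
  add_mem' := by
    rintro x1 x2 ⟨N1, h1, y1, e1⟩ ⟨N2, h2, y2, e2⟩
    refine ⟨N1 * N2, Nat.mul_pos h1 h2, N2 • y1 + N1 • y2, ?_⟩
    rw [map_add, map_nsmul, map_nsmul, e1, e2, ← Nat.cast_smul_eq_nsmul ℚ,
      ← Nat.cast_smul_eq_nsmul ℚ, smul_smul, smul_smul, smul_add]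
    push_cast
    rw [mul_comm (N2 : ℚ)]
  smul_mem' := by
    rintro c x ⟨N, hN, y, e⟩
    refine ⟨c.den * N, Nat.mul_pos c.pos hN, c.num • y, ?_⟩
    rw [map_zsmul, e, ← Int.cast_smul_eq_zsmul ℚ, smul_smul, smul_smul]
    congr 1
    have := Rat.mul_den_eq_num c
    push_cast
    rw [← this]
    ring

theorem fixedBy_le_W {H : Subgroup G} (h : D.Zagier H) : fixedBy D.ρ H ≤ D.W := by
  intro x hx
  obtain ⟨N, hN, y, hy⟩ := onto_of_zagier h x hx
  obtain ⟨y', hy'⟩ := D.up H y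
  exact ⟨N, hN, y', hy'.trans hy⟩

theorem ρ_mem_W (g : G) {x : D.K} (hx : x ∈ D.W) : D.ρ g x ∈ D.W := by
  obtain ⟨N, hN, y, hy⟩ := hx
  obtain ⟨y', hy'⟩ := D.move g y
  exact ⟨N, hN, y', by rw [hy', hy, map_smul]⟩

theorem zagier_of_W (h : ∀ x : D.K, x ∈ D.W) : D.Zagier ⊥ :=
  zagier_of_onto fun x _ => h x

theorem mem_of_smul {p : ℕ} (hp : p.Prime) {x : D.K} (h : (p : ℚ) • x ∈ D.W) : x ∈ D.W := by
  have h1 : x = (p : ℚ)⁻¹ • (p : ℚ) • x := by
    rw [smul_smul, inv_mul_cancel₀ (by exact_mod_cast hp.ne_zero), one_smul]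
  rw [h1]
  exact D.W.smul_mem _ h

/-- two commuting elements of order `p` -/
theorem caseA {p : ℕ} [Fact p.Prime] {a b : G} (hab : Commute a b) (ha : a ^ p = 1)
    (hb : b ^ p = 1) (h1 : ∀ i : ZMod p, D.Zagier (Subgroup.zpowers (a * pw b i)))
    (h2 : D.Zagier (Subgroup.zpowers b)) : D.Zagier ⊥ := by
  refine zagier_of_W fun x => mem_of_smul (Fact.out : p.Prime) ?_
  rw [identity_A hab ha hb x]
  have hu : ∀ i : ZMod p, (a * pw b i) ^ p = 1 := by
    intro i
    unfold pw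
    rw [(hab.pow_right _).mul_pow, ha, one_mul, ← pow_mul, mul_comm, pow_mul, hb, one_pow]
  refine D.W.sub_mem (D.W.add_mem (D.W.sum_mem fun i _ => fixedBy_le_W (h1 i) (T_mem (hu i) x))
    (fixedBy_le_W h2 (T_mem hb x))) ?_
  have h3 := h1 0
  rw [pw_zero, mul_one] at h3
  exact fixedBy_le_W h3 (T_mem ha _)

/-- a Frobenius group -/
theorem caseB {p q : ℕ} [Fact p.Prime] [NeZero q] {a b : G} {r : ℕ} (ha : a ^ p = 1)
    (hb : b ^ q = 1) (hr : b * a = a ^ r * b)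
    (hk : ∀ k : ℕ, 0 < k → k < q → ((r : ZMod p)) ^ k ≠ 1)
    (h1 : D.Zagier (Subgroup.zpowers a)) (h2 : D.Zagier (Subgroup.zpowers b)) :
    D.Zagier ⊥ := by
  refine zagier_of_W fun x => mem_of_smul (Fact.out : p.Prime) ?_
  rw [identity_B ha hb hr hk x]
  exact D.W.add_mem (D.W.sub_mem (D.W.sum_mem fun t _ => ρ_mem_W _ (fixedBy_le_W h2 (T_mem hb _)))
    (fixedBy_le_W h1 (T_mem ha _))) (fixedBy_le_W h1 (T_mem ha _))

/-- the action on the quotient -/
def quotRep (D : ZagierData G) : Representation ℚ G (D.K ⧸ D.W) where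
  toFun g := D.W.mapQ D.W (D.ρ g) fun _ hx => ρ_mem_W g hx
  map_one' := by
    apply LinearMap.ext
    intro m
    obtain ⟨x, rfl⟩ := Submodule.mkQ_surjective _ m
    simp
  map_mul' g h := by
    apply LinearMap.ext
    intro m
    obtain ⟨x, rfl⟩ := Submodule.mkQ_surjective _ m
    simp

theorem quotRep_mk (g : G) (x : D.K) : D.quotRep g (D.W.mkQ x) = D.W.mkQ (D.ρ g x) := rfl

theorem finiteDimensional (D : ZagierData G) : FiniteDimensional ℚ D.K := by
  classical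
  obtain ⟨x, -, hspan, -⟩ := D.borel ⊥
  refine ⟨⟨Finset.univ.image x, ?_⟩⟩
  rw [eq_top_iff]
  rintro y -
  obtain ⟨c, rfl⟩ := hspan y (fun h hh => by
    rw [Subgroup.mem_bot.1 hh]
    simp)
  exact Submodule.sum_mem _ fun i _ => Submodule.smul_mem _ _ (Submodule.subset_span (by simp))

/-- the quotient has no vectors fixed by a nontrivial element -/
theorem quot_free [Finite G] (h : ∀ H : Subgroup G, H ≠ ⊥ → D.Zagier H) {g : G} (hg : g ≠ 1)
    (m : D.K ⧸ D.W) (hm : D.quotRep g m = m) : m = 0 := by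
  obtain ⟨x, rfl⟩ := Submodule.mkQ_surjective _ m
  have : NeZero (orderOf g) := ⟨(orderOf_pos g).ne'⟩
  have h1 : T D.ρ (orderOf g) g x ∈ D.W :=
    fixedBy_le_W (h _ fun h0 => hg (Subgroup.zpowers_eq_bot.1 h0)) (T_mem (pow_orderOf_eq_one g) x)
  have h2 : ∀ k : ℕ, D.quotRep (g ^ k) (D.W.mkQ x) = D.W.mkQ x := by
    intro k
    induction k with
    | zero => simp
    | succ k ih => rw [pow_succ, ρ_mul, hm, ih]
  have h3 : D.W.mkQ (T D.ρ (orderOf g) g x) = (orderOf g : ℚ) • D.W.mkQ x := by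
    unfold T
    rw [map_sum]
    have h4 : ∀ z : ZMod (orderOf g), D.W.mkQ (D.ρ (pw g z) x) = D.W.mkQ x := fun z => h2 _
    rw [Finset.sum_congr rfl fun z _ => h4 z, Finset.sum_const, Finset.card_univ, ZMod.card,
      Nat.cast_smul_eq_nsmul]
  rw [(Submodule.Quotient.mk_eq_zero _).2 h1 |> fun e : D.W.mkQ (T D.ρ (orderOf g) g x) = 0 => e]
    at h3
  rcases smul_eq_zero.1 h3.symm with h5 | h5
  · exact absurd h5 (by exact_mod_cast (orderOf_pos g).ne')
  · exact h5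

/-- **Fixed point free quotient.** -/
theorem exists_free [Finite G] (h : ∀ H : Subgroup G, H ≠ ⊥ → D.Zagier H) (h0 : ¬ D.Zagier ⊥) :
    ∃ (M : Type) (_ : AddCommGroup M) (_ : Module ℚ M) (τ : Representation ℚ G M)
      (π : D.K →ₗ[ℚ] M), Function.Surjective π ∧ (∀ (g : G) (x : D.K), π (D.ρ g x) = τ g (π x)) ∧
      FiniteDimensional ℚ M ∧ Nontrivial M ∧ ∀ g : G, g ≠ 1 → ∀ m : M, τ g m = m → m = 0 := by
  have := D.finiteDimensional
  refine ⟨D.K ⧸ D.W, inferInstance, inferInstance, D.quotRep, D.W.mkQ, D.W.mkQ_surjective,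
    fun g x => (quotRep_mk g x).symm, inferInstance, ?_, fun g hg m hm => quot_free h hg m hm⟩
  rw [Submodule.Quotient.nontrivial_iff]
  intro htop
  exact h0 (zagier_of_W fun x => by rw [htop]; trivial)

end ZagierData

end Pool.Agent.Q5.ZG
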