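import Mathlib

/-!
# Approximation by the values of an additive map
-/

set_option autoImplicit false

namespace Pool.Agent.Q5.ZG

open Matrix

variable {ι B : Type} [Fintype ι] [DecidableEq ι] [AddCommGroup B]

/-- If the values span the space, every vector is approximated by rational multiples of values. -/
theorem approx (v : B →+ (ι → ℝ)) (h : Submodule.span ℝ (Set.range v) = ⊤) (x : ι → ℝ) :
    ∀ ε : ℝ, 0 < ε → ∃ (y : B) (N : ℕ), 0 < N ∧ ∀ i, |v y i - N * x i| < N * ε := by
  have hx : x ∈ Submodule.span ℝ (Set.range v) := by rw [h]; trivial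
  induction hx using Submodule.span_induction with
  | mem x hx =>
    obtain ⟨y, rfl⟩ := hx
    intro ε hε
    exact ⟨y, 1, one_pos, fun i => by simpa using hε⟩
  | zero =>
    intro ε hε
    exact ⟨0, 1, one_pos, fun i => by simpa using hε⟩
  | add x1 x2 _ _ h1 h2 =>
    intro ε hε
    obtain ⟨y1, N1, hN1, k1⟩ := h1 (ε / 2) (half_pos hε)
    obtain ⟨y2, N2, hN2, k2⟩ := h2 (ε / 2) (half_pos hε)
    refine ⟨N2 • y1 + N1 • y2, N1 * N2, Nat.mul_pos hN1 hN2, fun i => ?_⟩
    have p1 : (0 : ℝ) < N1 := by exact_mod_cast hN1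
    have p2 : (0 : ℝ) < N2 := by exact_mod_cast hN2
    have e : v (N2 • y1 + N1 • y2) i - ((N1 * N2 : ℕ) : ℝ) * (x1 + x2) i =
        N2 * (v y1 i - N1 * x1 i) + N1 * (v y2 i - N2 * x2 i) := by
      rw [map_add, map_nsmul, map_nsmul, Pi.add_apply, Pi.add_apply, Pi.smul_apply,
        Pi.smul_apply, nsmul_eq_mul, nsmul_eq_mul]
      push_cast
      ring
    rw [e]
    have a1 := abs_add_le (N2 * (v y1 i - N1 * x1 i)) (N1 * (v y2 i - N2 * x2 i))
    rw [abs_mul, abs_mul, abs_of_pos p1, abs_of_pos p2] at a1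
    have b1 := mul_lt_mul_of_pos_left (k1 i) p2
    have b2 := mul_lt_mul_of_pos_left (k2 i) p1
    push_cast
    nlinarith
  | smul r x _ h1 =>
    intro ε hε
    obtain ⟨M, hM⟩ : ∃ M : ℝ, 0 < M ∧ ∀ i, |x i| ≤ M := by
      refine ⟨∑ i, |x i| + 1, by positivity, fun i => ?_⟩
      have : |x i| ≤ ∑ i, |x i| := Finset.single_le_sum (f := fun i => |x i|)
        (fun i _ => abs_nonneg _) (Finset.mem_univ i)
      linarith
    obtain ⟨hM0, hM1⟩ := hM
    obtain ⟨q, hq1, hq2⟩ := exists_rat_btwn (show r - ε / (2 * M) < r by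
      have : 0 < ε / (2 * M) := by positivity
      linarith)
    have hqr : |(q : ℝ) - r| ≤ ε / (2 * M) := by
      rw [abs_le]
      constructor <;> linarith
    obtain ⟨y, N, hN, k⟩ := h1 (ε / (2 * (|(q : ℝ)| + 1))) (by positivity)
    refine ⟨q.num • y, q.den * N, Nat.mul_pos q.pos hN, fun i => ?_⟩
    have hd : (0 : ℝ) < q.den := by exact_mod_cast q.pos
    have pN : (0 : ℝ) < N := by exact_mod_cast hN
    have hnum : (q.num : ℝ) = q.den * q := by
      have := Rat.mul_den_eq_num q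
      have h2 : ((q * q.den : ℚ) : ℝ) = ((q.num : ℚ) : ℝ) := by rw [this]
      push_cast at h2
      linarith
    have e : v (q.num • y) i - ((q.den * N : ℕ) : ℝ) * (r • x) i =
        q.den * (q * (v y i - N * x i) + N * ((q - r) * x i)) := by
      rw [map_zsmul, Pi.smul_apply, Pi.smul_apply, zsmul_eq_mul, smul_eq_mul, hnum]
      push_cast
      ring
    rw [e, abs_mul, abs_of_pos hd]
    push_cast
    rw [mul_assoc]
    apply mul_lt_mul_of_pos_left _ hd
    have a1 := abs_add_le ((q : ℝ) * (v y i - N * x i)) (N * ((q - r) * x i))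
    rw [abs_mul, abs_mul, abs_mul, abs_of_pos pN] at a1
    have b1 : |(q : ℝ)| * |v y i - N * x i| ≤ |(q : ℝ)| * (N * (ε / (2 * (|(q : ℝ)| + 1)))) :=
      mul_le_mul_of_nonneg_left (k i).le (abs_nonneg _)
    have b2 : |(q : ℝ)| * (N * (ε / (2 * (|(q : ℝ)| + 1)))) < N * (ε / 2) := by
      have h3 : |(q : ℝ)| * (N * (ε / (2 * (|(q : ℝ)| + 1)))) =
          N * (ε / 2) * (|(q : ℝ)| / (|(q : ℝ)| + 1)) := by
        field_simp
      rw [h3]
      have h4 : |(q : ℝ)| / (|(q : ℝ)| + 1) < 1 := by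
        rw [div_lt_one (by positivity)]
        linarith
      have h5 : 0 < (N : ℝ) * (ε / 2) := by positivity
      nlinarith
    have b3 : |(q : ℝ) - r| * |x i| ≤ ε / (2 * M) * M :=
      mul_le_mul hqr (hM1 i) (abs_nonneg _) (by positivity)
    have b4 : ε / (2 * M) * M = ε / 2 := by field_simp
    rw [b4] at b3
    have b5 := mul_le_mul_of_nonneg_left b3 pN.le
    linarith

/-- a strictly dominant choice gives a nonzero determinant -/
theorem det_ne_zero_of_dominant (v : B →+ (ι → ℝ)) (y : ι → B)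
    (h : ∀ j, ∑ i ∈ Finset.univ.erase j, |v (y j) i| < |v (y j) j|) :
    (Matrix.of fun j i => v (y j) i).det ≠ 0 := by
  apply det_ne_zero_of_sum_row_lt_diag
  intro k
  simpa using h k

theorem span_of_det (v : B →+ (ι → ℝ)) (y : ι → B)
    (h : (Matrix.of fun j i => v (y j) i).det ≠ 0) : Submodule.span ℝ (Set.range v) = ⊤ := by
  have h1 : IsUnit (Matrix.of fun j i => v (y j) i) :=
    (Matrix.isUnit_iff_isUnit_det _).2 (isUnit_iff_ne_zero.2 h)
  have h2 : LinearIndependent ℝ (fun j => v (y j)) := by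
    have := Matrix.linearIndependent_rows_of_isUnit h1
    exact this
  have h3 := h2.span_eq_top_of_card_eq_finrank' (by simp)
  rw [eq_top_iff, ← h3]
  apply Submodule.span_mono
  rintro _ ⟨j, rfl⟩
  exact ⟨y j, rfl⟩

/-- strict dominance at `j` -/
theorem dominant_of_span (v : B →+ (ι → ℝ)) (h : Submodule.span ℝ (Set.range v) = ⊤) (j : ι) :
    ∃ y : B, ∑ i ∈ Finset.univ.erase j, |v y i| < |v y j| := by
  have hc : (0 : ℝ) < Fintype.card ι := by exact_mod_cast Fintype.card_pos_iff.2 ⟨j⟩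
  obtain ⟨y, N, hN, k⟩ := approx v h (Pi.single j 1) (1 / (2 * Fintype.card ι)) (by positivity)
  refine ⟨y, ?_⟩
  have pN : (0 : ℝ) < N := by exact_mod_cast hN
  have h1 : ∀ i ∈ Finset.univ.erase j, |v y i| ≤ N * (1 / (2 * Fintype.card ι)) := by
    intro i hi
    have := (k i).le
    rwa [Pi.single_eq_of_ne (Finset.ne_of_mem_erase hi), mul_zero, sub_zero] at this
  have h2 := Finset.sum_le_sum h1
  rw [Finset.sum_const, nsmul_eq_mul, Finset.card_erase_of_mem (Finset.mem_univ j),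
    Finset.card_univ] at h2
  have h3 := k j
  rw [Pi.single_eq_same, mul_one] at h3
  have h4 : (N : ℝ) - N * (1 / (2 * Fintype.card ι)) < |v y j| := by
    have := (abs_lt.1 h3).1
    have h5 := le_abs_self (v y j)
    linarith
  have h6 : ((Fintype.card ι - 1 : ℕ) : ℝ) = Fintype.card ι - 1 := by
    have : 1 ≤ Fintype.card ι := Fintype.card_pos_iff.2 ⟨j⟩
    push_cast [Nat.cast_sub this]
    ring
  rw [h6] at h2
  have h7 : ((Fintype.card ι : ℝ) - 1) * (N * (1 / (2 * Fintype.card ι))) =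
      N / 2 - N * (1 / (2 * Fintype.card ι)) := by
    field_simp
  rw [h7] at h2
  linarith

theorem signs_of_span (v : B →+ (ι → ℝ)) (h : Submodule.span ℝ (Set.range v) = ⊤)
    (P : Set ι) : ∃ y : B, ∀ i, (i ∈ P → 0 < v y i) ∧ (i ∉ P → v y i < 0) := by
  classical
  obtain ⟨y, N, hN, k⟩ := approx v h (fun i => if i ∈ P then 1 else -1) 1 one_pos
  have pN : (0 : ℝ) < N := by exact_mod_cast hN
  refine ⟨y, fun i => ⟨fun hi => ?_, fun hi => ?_⟩⟩
  · have := abs_lt.1 (k i)
    rw [if_pos hi] at this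
    linarith [this.1]
  · have := abs_lt.1 (k i)
    rw [if_neg hi] at this
    linarith [this.2]

theorem span_of_signs (v : B →+ (ι → ℝ))
    (h : ∀ P : Set ι, ∃ y : B, ∀ i, (i ∈ P → 0 < v y i) ∧ (i ∉ P → v y i < 0)) :
    Submodule.span ℝ (Set.range v) = ⊤ := by
  classical
  by_contra hne
  obtain ⟨f, hf0, hf⟩ := Submodule.exists_le_ker_of_lt_top _ (lt_top_iff_ne_top.2 hne)
  let c : ι → ℝ := fun i => f (Pi.single i 1)
  have hfc : ∀ x : ι → ℝ, f x = ∑ i, c i * x i := by
    intro x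
    conv_lhs => rw [← Finset.univ_sum_single x]
    rw [map_sum]
    refine Finset.sum_congr rfl fun i _ => ?_
    have : (Pi.single i (x i) : ι → ℝ) = x i • Pi.single i 1 := by
      rw [← Pi.single_smul, smul_eq_mul, mul_one]
    rw [this, map_smul, smul_eq_mul, mul_comm]
  obtain ⟨y, hy⟩ := h {i | 0 ≤ c i}
  have h0 : f (v y) = 0 := hf (Submodule.subset_span ⟨y, rfl⟩)
  rw [hfc] at h0
  have hnn : ∀ i ∈ Finset.univ, 0 ≤ c i * v y i := by
    intro i _
    rcases le_or_gt 0 (c i) with h1 | h1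
    · exact mul_nonneg h1 ((hy i).1 h1).le
    · exact (mul_pos_of_neg_of_neg h1 ((hy i).2 (not_le.2 h1))).le
  have h1 := (Finset.sum_eq_zero_iff_of_nonneg hnn).1 h0
  apply hf0
  ext i
  have h2 : c i = 0 := by
    rcases mul_eq_zero.1 (h1 i (Finset.mem_univ i)) with h3 | h3
    · exact h3
    · rcases le_or_gt 0 (c i) with h4 | h4
      · exact absurd h3 ((hy i).1 h4).ne'
      · exact absurd h3 ((hy i).2 (not_le.2 h4)).ne
  simpa [c] using h2

/-- a spanning family of values -/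
theorem exists_det (v : B →+ (ι → ℝ)) (h : Submodule.span ℝ (Set.range v) = ⊤) :
    ∃ y : ι → B, (Matrix.of fun j i => v (y j) i).det ≠ 0 := by
  choose y hy using dominant_of_span v h
  exact ⟨y, det_ne_zero_of_dominant v y hy⟩

end Pool.Agent.Q5.ZG
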